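import Mathlib

/-!
# A total atomless probability measure gives a random subset of `ℕ`

`X` carries the σ-algebra of all subsets, `μ` is a probability measure on it, and `g` is an
injection of `X` into `[0,1]`; points are null.  We construct `f : X → ℕ → Bool` such that for every
infinite set `B` of natural numbers the set of points `x` for which `f x` is constant on `B` is null.
-/

set_option autoImplicit false

namespace Pool.Agent.H704.Splitting

open MeasureTheory Set
open scoped ENNReal

variable {X : Type} [MeasurableSpace X] (hms : ∀ s : Set X, MeasurableSet s)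
  (μ : Measure X) [IsProbabilityMeasure μ]

include hms in
/-- every set has a subset of half its measure -/
lemma exists_half (g : X → ℝ) (hg : Function.Injective g) (hg0 : ∀ x, 0 ≤ g x) (hg1 : ∀ x, g x ≤ 1)
    (hpt : ∀ x, μ {x} = 0) (S : Set X) : ∃ S' ⊆ S, μ S' = μ S / 2 := by
  by_cases hS : μ S = 0
  · exact ⟨∅, empty_subset _, by simp [hS]⟩
  set φ : ℝ → ℝ≥0∞ := fun t => μ (S ∩ g ⁻¹' (Iic t)) with hφ
  have hmono : Monotone φ := fun s t hst =>
    measure_mono (inter_subset_inter_right _ (preimage_mono (Iic_subset_Iic.2 hst)))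
  have hhalf : μ S / 2 ≤ μ S := ENNReal.half_le_self
  have hSfin : μ S ≠ ∞ := measure_ne_top _ _
  set T : Set ℝ := {t | μ S / 2 ≤ φ t} with hT
  have h1T : (1 : ℝ) ∈ T := by
    have : S ∩ g ⁻¹' (Iic 1) = S := by
      apply inter_eq_left.2
      intro x _
      exact hg1 x
    show μ S / 2 ≤ μ (S ∩ g ⁻¹' (Iic 1))
    rw [this]; exact hhalf
  have hbdd : BddBelow T := by
    refine ⟨0, fun t ht => ?_⟩
    by_contra hlt
    push Not at hlt
    have : S ∩ g ⁻¹' (Iic t) = ∅ := by
      ext x
      simp only [mem_inter_iff, mem_preimage, mem_Iic, mem_empty_iff_false, iff_false, not_and,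
        not_le]
      intro _
      linarith [hg0 x]
    have h2 : μ S / 2 ≤ 0 := by
      have h3 : μ S / 2 ≤ μ (S ∩ g ⁻¹' (Iic t)) := ht
      rwa [this, measure_empty] at h3
    have h4 : μ S / 2 = 0 := le_antisymm h2 bot_le
    rw [ENNReal.div_eq_zero_iff] at h4
    rcases h4 with h4 | h4
    · exact hS h4
    · exact absurd h4 (by simp)
  set t₀ := sInf T with ht₀
  refine ⟨S ∩ g ⁻¹' (Iic t₀), inter_subset_left, le_antisymm ?_ ?_⟩
  · -- `≤`
    have hsub : S ∩ g ⁻¹' (Iic t₀) ⊆ (⋃ n : ℕ, S ∩ g ⁻¹' (Iic (t₀ - 1 / (n + 1)))) ∪ (g ⁻¹' {t₀}) := by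
      rintro x ⟨hxS, hx⟩
      rcases eq_or_lt_of_le (show g x ≤ t₀ from hx) with h | h
      · right; exact h
      · left
        obtain ⟨n, hn⟩ := exists_nat_one_div_lt (sub_pos.2 h)
        refine mem_iUnion.2 ⟨n, hxS, ?_⟩
        show g x ≤ t₀ - 1 / (n + 1)
        linarith
    have hnull : μ (g ⁻¹' {t₀}) = 0 := by
      rcases (g ⁻¹' {t₀}).eq_empty_or_nonempty with h | ⟨x, hx⟩
      · rw [h, measure_empty]
      · have : g ⁻¹' {t₀} = {x} := by
          ext y
          constructor
          · intro hy
            exact hg ((show g y = t₀ from hy).trans (show g x = t₀ from hx).symm)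
          · rintro rfl; exact hx
        rw [this, hpt]
    calc μ (S ∩ g ⁻¹' (Iic t₀)) ≤ μ (⋃ n : ℕ, S ∩ g ⁻¹' (Iic (t₀ - 1 / (n + 1)))) + μ (g ⁻¹' {t₀}) :=
          (measure_mono hsub).trans (measure_union_le _ _)
      _ = μ (⋃ n : ℕ, S ∩ g ⁻¹' (Iic (t₀ - 1 / (n + 1)))) := by rw [hnull, add_zero]
      _ ≤ μ S / 2 := by
          have hm : Monotone fun n : ℕ => S ∩ g ⁻¹' (Iic (t₀ - 1 / ((n : ℝ) + 1))) := by
            intro a b hab
            apply inter_subset_inter_right
            apply preimage_mono
            apply Iic_subset_Iic.2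
            have : 1 / ((b : ℝ) + 1) ≤ 1 / ((a : ℝ) + 1) := by
              apply one_div_le_one_div_of_le (by positivity)
              have : (a : ℝ) ≤ b := by exact_mod_cast hab
              linarith
            linarith
          rw [hm.measure_iUnion]
          refine iSup_le fun n => ?_
          by_contra hcon
          push Not at hcon
          have hmem : t₀ - 1 / ((n : ℝ) + 1) ∈ T := le_of_lt hcon
          have := csInf_le hbdd hmem
          have hpos : 0 < 1 / ((n : ℝ) + 1) := by positivity
          linarith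
  · -- `≥`
    have heq : S ∩ g ⁻¹' (Iic t₀) = ⋂ n : ℕ, S ∩ g ⁻¹' (Iic (t₀ + 1 / ((n : ℝ) + 1))) := by
      ext x
      simp only [mem_inter_iff, mem_preimage, mem_Iic, mem_iInter]
      constructor
      · rintro ⟨h1, h2⟩ n
        refine ⟨h1, ?_⟩
        have hpos : 0 < 1 / ((n : ℝ) + 1) := by positivity
        linarith
      · intro h
        refine ⟨(h 0).1, ?_⟩
        by_contra hcon
        push Not at hcon
        obtain ⟨n, hn⟩ := exists_nat_one_div_lt (sub_pos.2 hcon)
        have := (h n).2
        linarith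
    rw [heq, Antitone.measure_iInter]
    · refine le_iInf fun n => ?_
      have hpos : 0 < 1 / ((n : ℝ) + 1) := by positivity
      obtain ⟨t, htT, hlt⟩ := exists_lt_of_csInf_lt ⟨1, h1T⟩
        (show sInf T < t₀ + 1 / ((n : ℝ) + 1) by rw [← ht₀]; linarith)
      exact (show μ S / 2 ≤ φ t from htT).trans (hmono hlt.le)
    · intro a b hab
      apply inter_subset_inter_right
      apply preimage_mono
      apply Iic_subset_Iic.2
      have : 1 / ((b : ℝ) + 1) ≤ 1 / ((a : ℝ) + 1) := by
        apply one_div_le_one_div_of_le (by positivity)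
        have : (a : ℝ) ≤ b := by exact_mod_cast hab
        linarith
      linarith
    · exact fun n => (hms _).nullMeasurableSet
    · exact ⟨0, measure_ne_top _ _⟩

/-- the code of a point: the first `n` digits, latest first, with respect to a halving function -/
noncomputable def code (H : Set X → Set X) : ℕ → X → List Bool
  | 0 => fun _ => []
  | n + 1 => fun x =>
      (open Classical in decide (x ∈ H (code H n ⁻¹' {code H n x}))) :: code H n x

/-- the `n`-th digit -/
noncomputable def digit (H : Set X → Set X) (x : X) (n : ℕ) : Bool :=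
  open Classical in decide (x ∈ H (code H n ⁻¹' {code H n x}))

omit [MeasurableSpace X] in
lemma code_succ (H : Set X → Set X) (n : ℕ) (x : X) :
    code H (n + 1) x = digit H x n :: code H n x := rfl

omit [MeasurableSpace X] in
lemma drop_code (H : Set X → Set X) (n k : ℕ) (x : X) :
    (code H (n + k) x).drop k = code H n x := by
  induction k with
  | zero => simp
  | succ k ih =>
    rw [← add_assoc, code_succ, List.drop_succ_cons, ih]

include hms in
lemma measure_digit (H : Set X → Set X) (hHs : ∀ S, H S ⊆ S) (hH : ∀ S, μ (H S) = μ S / 2)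
    (n : ℕ) (K : Set (List Bool)) (i : Bool) :
    μ (code H n ⁻¹' K ∩ {x | digit H x n = i}) = μ (code H n ⁻¹' K) / 2 := by
  classical
  set D : List Bool → Set X := fun τ => code H n ⁻¹' {τ} with hD
  set E : List Bool → Set X := fun τ => if i then H (D τ) else D τ \ H (D τ) with hE
  have hEs : ∀ τ, E τ ⊆ D τ := by
    intro τ
    simp only [hE]
    split_ifs
    · exact hHs _
    · exact diff_subset
  have hEm : ∀ τ, μ (E τ) = μ (D τ) / 2 := by
    intro τ
    simp only [hE]
    split_ifs
    · exact hH _
    · rw [measure_diff (hHs _) (hms _).nullMeasurableSet (measure_ne_top _ _), hH]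
      exact ENNReal.sub_half (measure_ne_top _ _)
  have hdisj : Pairwise (Function.onFun Disjoint D) := by
    intro σ τ hne
    refine Set.disjoint_left.2 fun x hx hy => hne ?_
    exact (show code H n x = σ from hx).symm.trans (show code H n x = τ from hy)
  have h1 : code H n ⁻¹' K = ⋃ τ ∈ K, D τ := by
    ext x
    simp [hD]
  have h2 : code H n ⁻¹' K ∩ {x | digit H x n = i} = ⋃ τ ∈ K, E τ := by
    ext x
    simp only [mem_inter_iff, mem_preimage, mem_setOf_eq, mem_iUnion, exists_prop]
    constructor
    · rintro ⟨hK, hd⟩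
      refine ⟨code H n x, hK, ?_⟩
      simp only [hE, hD]
      unfold digit at hd
      cases i
      · simp only [Bool.false_eq_true, if_false, mem_diff, mem_preimage, mem_singleton_iff, true_and]
        simpa using hd
      · simp only [if_true]
        simpa using hd
    · rintro ⟨τ, hK, hx⟩
      have hxD : code H n x = τ := hEs τ hx
      subst hxD
      refine ⟨hK, ?_⟩
      unfold digit
      simp only [hE, hD] at hx
      cases i
      · simp only [Bool.false_eq_true, if_false, mem_diff] at hx
        simpa using hx.2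
      · simp only [if_true] at hx
        simpa using hx
  rw [h2, h1, measure_biUnion (Set.to_countable K)
      (fun a _ b _ hab => (hdisj hab).mono (hEs a) (hEs b)) (fun _ _ => hms _),
    measure_biUnion (Set.to_countable K) (fun a _ b _ hab => hdisj hab) (fun _ _ => hms _)]
  simp only [hEm, div_eq_mul_inv]
  exact ENNReal.tsum_mul_right

include hms in
lemma measure_const (H : Set X → Set X) (hHs : ∀ S, H S ⊆ S) (hH : ∀ S, μ (H S) = μ S / 2)
    (B : Set ℕ) (hB : B.Infinite) (i : Bool) : μ {x | ∀ b ∈ B, digit H x b = i} = 0 := by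
  set N := {x | ∀ b ∈ B, digit H x b = i} with hN
  have key : ∀ k : ℕ, ∃ (n : ℕ) (K : Set (List Bool)), N ⊆ code H n ⁻¹' K ∧
      μ (code H n ⁻¹' K) ≤ (1 / 2) ^ k := by
    intro k
    induction k with
    | zero => exact ⟨0, univ, by simp, by simpa using prob_le_one⟩
    | succ k ih =>
      obtain ⟨n, K, hNK, hm⟩ := ih
      obtain ⟨b, hbB, hb⟩ := hB.exists_gt n
      obtain ⟨d, rfl⟩ := Nat.exists_eq_add_of_le hb.le
      set K' : Set (List Bool) := {τ | τ.drop d ∈ K} with hK'
      have hpre : code H (n + d) ⁻¹' K' = code H n ⁻¹' K := by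
        ext x
        simp only [mem_preimage, hK', mem_setOf_eq, drop_code]
      refine ⟨n + d + 1, {τ | ∃ σ ∈ K', τ = i :: σ}, ?_, ?_⟩
      · intro x hx
        refine ⟨code H (n + d) x, ?_, ?_⟩
        · have : x ∈ code H (n + d) ⁻¹' K' := by rw [hpre]; exact hNK hx
          exact this
        · rw [code_succ, hx _ hbB]
      · have : code H (n + d + 1) ⁻¹' {τ | ∃ σ ∈ K', τ = i :: σ} ⊆
            code H (n + d) ⁻¹' K' ∩ {x | digit H x (n + d) = i} := by
          rintro x ⟨σ, hσ, hx⟩
          rw [code_succ, List.cons.injEq] at hx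
          refine ⟨?_, hx.1⟩
          show code H (n + d) x ∈ K'
          rw [hx.2]; exact hσ
        calc _ ≤ μ (code H (n + d) ⁻¹' K' ∩ {x | digit H x (n + d) = i}) := measure_mono this
          _ = μ (code H n ⁻¹' K) / 2 := by rw [measure_digit hms μ H hHs hH, hpre]
          _ ≤ (1 / 2) ^ k / 2 := ENNReal.div_le_div_right hm 2
          _ = (1 / 2) ^ (k + 1) := by rw [pow_succ, div_eq_mul_inv ((1 / 2 : ℝ≥0∞) ^ k) 2, one_div]
  refine le_antisymm ?_ bot_le
  have hle : ∀ k : ℕ, μ N ≤ (1 / 2) ^ k := by
    intro k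
    obtain ⟨n, K, h1, h2⟩ := key k
    exact (measure_mono h1).trans h2
  have hlim : Filter.Tendsto (fun k : ℕ => (1 / 2 : ℝ≥0∞) ^ k) Filter.atTop (nhds 0) := by
    apply ENNReal.tendsto_pow_atTop_nhds_zero_of_lt_one
    rw [one_div]
    exact ENNReal.inv_lt_one.2 (by norm_num)
  exact ge_of_tendsto' hlim hle

include hms in
/-- **random subsets of `ℕ` indexed by `X`** -/
theorem exists_random (g : X → ℝ) (hg : Function.Injective g) (hg0 : ∀ x, 0 ≤ g x)
    (hg1 : ∀ x, g x ≤ 1) (hpt : ∀ x, μ {x} = 0) :
    ∃ f : X → ℕ → Bool, ∀ B : Set ℕ, B.Infinite → ∀ i, μ {x | ∀ b ∈ B, f x b = i} = 0 := by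
  choose H hHs hH using exists_half hms μ g hg hg0 hg1 hpt
  exact ⟨digit H, fun B hB i => measure_const hms μ H hHs hH B hB i⟩

end Pool.Agent.H704.Splitting
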